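import Mathlib
import Pool.Agent.KDT.StmtsP

/-!
# Squad KDT, row INP (helper27): a plane curve has infinitely many points.
-/

set_option autoImplicit false

namespace Pool.Agent.KDT.Z.H27

open Polynomial

variable {k : Type} [Field k]

theorem ev_snd (Φ : MvPolynomial (Fin 2) k) (s p : k) :
    (MvPolynomial.aeval ![Polynomial.C s, (Polynomial.X : k[X])] Φ).eval p =
      MvPolynomial.aeval ![s, p] Φ := by
  have h : (Polynomial.aeval p).comp (MvPolynomial.aeval ![Polynomial.C s, (Polynomial.X : k[X])]) =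
      (MvPolynomial.aeval ![s, p] : MvPolynomial (Fin 2) k →ₐ[k] k) := by
    apply MvPolynomial.algHom_ext
    intro i
    fin_cases i
    · simp
    · simp
  have h2 := DFunLike.congr_fun h Φ
  rw [AlgHom.comp_apply, Polynomial.coe_aeval_eq_eval] at h2
  exact h2

theorem ev_fst (Φ : MvPolynomial (Fin 2) k) (s p : k) :
    (MvPolynomial.aeval ![(Polynomial.X : k[X]), Polynomial.C p] Φ).eval s =
      MvPolynomial.aeval ![s, p] Φ := by
  have h : (Polynomial.aeval s).comp (MvPolynomial.aeval ![(Polynomial.X : k[X]), Polynomial.C p]) =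
      (MvPolynomial.aeval ![s, p] : MvPolynomial (Fin 2) k →ₐ[k] k) := by
    apply MvPolynomial.algHom_ext
    intro i
    fin_cases i
    · simp
    · simp
  have h2 := DFunLike.congr_fun h Φ
  rw [AlgHom.comp_apply, Polynomial.coe_aeval_eq_eval] at h2
  exact h2

/-- a polynomial without roots is constant -/
theorem const_of [IsAlgClosed k] (P : k[X]) (h : ∀ x, P.eval x ≠ 0) (x y : k) :
    P.eval x = P.eval y := by
  have hd : P.degree = 0 := by
    by_contra hd
    obtain ⟨z, hz⟩ := IsAlgClosed.exists_root P hd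
    exact h z hz
  rw [Polynomial.eq_C_of_degree_eq_zero hd]
  simp

theorem zeros_infinite [IsAlgClosed k] (Φ : MvPolynomial (Fin 2) k) (hΦ : Irreducible Φ) :
    {x : k × k | Zr Φ x.1 x.2}.Infinite := by
  intro hfin
  have : Infinite k := IsAlgClosed.instInfinite
  have hS : (Prod.fst '' {x : k × k | Zr Φ x.1 x.2}).Finite := hfin.image _
  have hP : (Prod.snd '' {x : k × k | Zr Φ x.1 x.2}).Finite := hfin.image _
  have h1 : ∀ s ∉ Prod.fst '' {x : k × k | Zr Φ x.1 x.2}, ∀ p p' : k,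
      MvPolynomial.aeval ![s, p] Φ = MvPolynomial.aeval ![s, p'] Φ := by
    intro s hs p p'
    rw [← ev_snd, ← ev_snd]
    apply const_of
    intro q hq
    rw [ev_snd] at hq
    exact hs ⟨(s, q), hq, rfl⟩
  have h2 : ∀ p ∉ Prod.snd '' {x : k × k | Zr Φ x.1 x.2}, ∀ s s' : k,
      MvPolynomial.aeval ![s, p] Φ = MvPolynomial.aeval ![s', p] Φ := by
    intro p hp s s'
    rw [← ev_fst, ← ev_fst]
    apply const_of
    intro q hq
    rw [ev_fst] at hq
    exact hp ⟨(q, p), hq, rfl⟩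
  obtain ⟨s0, hs0⟩ := hS.infinite_compl.nonempty
  obtain ⟨p0, hp0⟩ := hP.infinite_compl.nonempty
  obtain ⟨c, hc⟩ : ∃ c : k, c = MvPolynomial.aeval ![s0, p0] Φ := ⟨_, rfl⟩
  have h3 : ∀ s ∉ Prod.fst '' {x : k × k | Zr Φ x.1 x.2}, ∀ p : k,
      MvPolynomial.aeval ![s, p] Φ = c := by
    intro s hs p
    rw [h1 s hs p p0, h2 p0 hp0 s s0, hc]
  obtain ⟨D, hD⟩ : ∃ D : MvPolynomial (Fin 2) k,
      D = ∏ s ∈ hS.toFinset, (MvPolynomial.X 0 - MvPolynomial.C s) := ⟨_, rfl⟩
  have hD0 : D ≠ 0 := by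
    rw [hD, Finset.prod_ne_zero_iff]
    intro s _ h0
    have h4 := congrArg (MvPolynomial.eval ![s + 1, 0]) h0
    simp at h4
  have h5 : D * (Φ - MvPolynomial.C c) = 0 := by
    apply MvPolynomial.funext
    intro x
    have hx : x = ![x 0, x 1] := by
      funext i
      fin_cases i
      · rfl
      · rfl
    rw [map_mul, map_zero, map_sub, MvPolynomial.eval_C]
    by_cases hs : x 0 ∈ Prod.fst '' {x : k × k | Zr Φ x.1 x.2}
    · have h6 : MvPolynomial.eval x D = 0 := by
        rw [hD, map_prod]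
        apply Finset.prod_eq_zero (hS.mem_toFinset.2 hs)
        simp
      rw [h6, zero_mul]
    · have h6 := h3 (x 0) hs (x 1)
      rw [← hx, MvPolynomial.aeval_eq_eval] at h6
      rw [h6, sub_self, mul_zero]
  have h7 : Φ = MvPolynomial.C c := by
    rcases mul_eq_zero.1 h5 with h | h
    · exact absurd h hD0
    · exact sub_eq_zero.1 h
  by_cases hc0 : c = 0
  · rw [hc0, map_zero] at h7
    exact hΦ.ne_zero h7
  · apply hΦ.not_isUnit
    rw [h7]
    exact (isUnit_iff_ne_zero.2 hc0).map MvPolynomial.C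

theorem inp (eli : EliStatement) : InpStatement := by
  classical
  intro k _ _ Φ G hΦ hG
  obtain ⟨R0, R1, hR0, hR1, -, -, h⟩ := eli (max Φ.totalDegree G.totalDegree) k Φ G
    (le_max_left _ _) (le_max_right _ _) hΦ hG
  have hfin : {x : k × k | Zr Φ x.1 x.2 ∧ Zr G x.1 x.2}.Finite := by
    have h1 : ({x : k | x ∈ R0.roots.toFinset} ×ˢ {x : k | x ∈ R1.roots.toFinset}).Finite :=
      (Finset.finite_toSet _).prod (Finset.finite_toSet _)
    refine h1.subset ?_
    rintro ⟨s, p⟩ ⟨hs, hp⟩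
    obtain ⟨h2, h3⟩ := h k s p hs hp
    rw [Polynomial.coe_aeval_eq_eval] at h2 h3
    refine ⟨?_, ?_⟩
    · show s ∈ R0.roots.toFinset
      rw [Multiset.mem_toFinset, Polynomial.mem_roots hR0]
      exact h2
    · show p ∈ R1.roots.toFinset
      rw [Multiset.mem_toFinset, Polynomial.mem_roots hR1]
      exact h3
  have h4 := (zeros_infinite Φ hΦ).sdiff hfin
  refine h4.mono ?_
  rintro x ⟨h5, h6⟩
  exact ⟨h5, fun h7 => h6 ⟨h5, h7⟩⟩

end Pool.Agent.KDT.Z.H27
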