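import Mathlib
import Pool.Agent.KDT.StmtsK

/-!
# Squad KDT, row KQU (helper27): the Kummer quartic.
-/

set_option autoImplicit false

namespace Pool.Agent.KDT.H27

open Polynomial Pool.Agent.SZT

theorem as2 {K : Type} [Field K] (A : K[X]) (hA : A.Monic) (h : A.natDegree = 2) :
    A = X ^ 2 + C (A.coeff 1) * X + C (A.coeff 0) := by
  have h1 := A.as_sum_range_C_mul_X_pow
  rw [h] at h1
  have h2 : A.coeff 2 = 1 := by
    rw [← h]
    exact hA
  simp only [Finset.sum_range_succ, Finset.sum_range_zero, h2] at h1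
  conv_lhs => rw [h1]
  simp
  ring

theorem as3 {K : Type} [Field K] (A : K[X]) (hA : A.Monic) (h : A.natDegree = 3) :
    A = X ^ 3 + C (A.coeff 2) * X ^ 2 + C (A.coeff 1) * X + C (A.coeff 0) := by
  have h1 := A.as_sum_range_C_mul_X_pow
  rw [h] at h1
  have h2 : A.coeff 3 = 1 := by
    rw [← h]
    exact hA
  simp only [Finset.sum_range_succ, Finset.sum_range_zero, h2] at h1
  conv_lhs => rw [h1]
  simp
  ring

theorem as1 {K : Type} [Field K] (B : K[X]) (h : B.natDegree < 2) :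
    B = C (B.coeff 1) * X + C (B.coeff 0) := by
  have h1 := B.as_sum_range_C_mul_X_pow' h
  simp only [Finset.sum_range_succ, Finset.sum_range_zero] at h1
  conv_lhs => rw [h1]
  simp
  ring

/-- The coefficients of `f`. -/
theorem coeffs {K : Type} [Field K] (f : K[X]) (a1 a0 b1 b0 c2 c1 c0 : K)
    (h : f = (C b1 * X + C b0) ^ 2 + (X ^ 2 + C a1 * X + C a0) *
      (X ^ 3 + C c2 * X ^ 2 + C c1 * X + C c0)) :
    f.coeff 4 = c2 + a1 ∧ f.coeff 3 = c1 + a1 * c2 + a0 ∧
      f.coeff 2 = c0 + a1 * c1 + a0 * c2 + b1 ^ 2 ∧ f.coeff 1 = a1 * c0 + a0 * c1 + 2 * b1 * b0 ∧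
      f.coeff 0 = a0 * c0 + b0 ^ 2 := by
  have h1 : f = C 1 * X ^ 5 + C (c2 + a1) * X ^ 4 + C (c1 + a1 * c2 + a0) * X ^ 3 +
      C (c0 + a1 * c1 + a0 * c2 + b1 ^ 2) * X ^ 2 + C (a1 * c0 + a0 * c1 + 2 * b1 * b0) * X ^ 1 +
      C (a0 * c0 + b0 ^ 2) * X ^ 0 := by
    rw [h]
    simp only [map_add, map_mul, map_pow, map_one, map_ofNat]
    ring
  refine ⟨?_, ?_, ?_, ?_, ?_⟩ <;> rw [h1] <;> simp only [coeff_add, coeff_C_mul_X_pow] <;> norm_num

theorem kqu : KquStatement := by
  constructor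
  · intro K _ f A B hf hf5 hM hA2
    obtain ⟨hAm, hBd, hdvd⟩ : A.Monic ∧ B.natDegree < 2 ∧ A ∣ f - B ^ 2 := by
      refine ⟨hM.monic, ?_, (dvd_sub_comm).1 hM.dvd⟩
      by_cases hB : B = 0
      · rw [hB, natDegree_zero]
        norm_num
      · have h1 := hM.deg
        rw [← hA2]
        exact natDegree_lt_natDegree hB h1
    obtain ⟨D, hD⟩ := hdvd
    have hsub : (f - B ^ 2).Monic := by
      refine hf.sub_of_left ?_
      refine degree_lt_degree ?_
      refine lt_of_le_of_lt (natDegree_pow_le) ?_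
      rw [hf5]
      omega
    have hsubd : (f - B ^ 2).natDegree = 5 := by
      rw [natDegree_sub_eq_left_of_natDegree_lt, hf5]
      refine lt_of_le_of_lt (natDegree_pow_le) ?_
      rw [hf5]
      omega
    have hDm : D.Monic := by
      rw [hD] at hsub
      exact hAm.of_mul_monic_left hsub
    have hD3 : D.natDegree = 3 := by
      rw [hD, hAm.natDegree_mul hDm, hA2] at hsubd
      omega
    have hfe : f = (C (B.coeff 1) * X + C (B.coeff 0)) ^ 2 +
        (X ^ 2 + C (A.coeff 1) * X + C (A.coeff 0)) *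
          (X ^ 3 + C (D.coeff 2) * X ^ 2 + C (D.coeff 1) * X + C (D.coeff 0)) := by
      rw [← as1 B hBd, ← as2 A hAm hA2, ← as3 D hDm hD3, ← hD]
      ring
    obtain ⟨h4, h3, h2, h1, h0⟩ := coeffs f _ _ _ _ _ _ _ hfe
    unfold quart kum
    simp only [Matrix.cons_val_zero, Matrix.cons_val_one, Matrix.cons_val]
    rw [h4, h3, h2, h1, h0]
    ring
  · intro K E _ _ φ f A B
    constructor
    · intro i
      fin_cases i
      · simp [kum]
      · simp [kum]
      · simp [kum]
      · simp [kum]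
    · intro u
      unfold quart
      simp only [map_add, map_sub, map_mul, map_pow, map_neg, map_ofNat, coeff_map]

end Pool.Agent.KDT.H27
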